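import Mathlib

/-!
# Sum of element orders does not determine the order sequence for odd order
-/

namespace Pool.Agent.Results.MP_c3eb23_al.OddOrderCounterexample

/-- `G` is an LCM-group: `o(x^n y)` divides `lcm (o(x^n)) (o(y))`. -/
def IsLCMGroup (G : Type) [Group G] : Prop :=
  ∀ (x y : G) (n : ℕ), orderOf (x ^ n * y) ∣ Nat.lcm (orderOf (x ^ n)) (orderOf y)

/-- the sum of the element orders -/
noncomputable def psi (G : Type) [Group G] [Fintype G] : ℕ := ∑ x : G, orderOf x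

/-- the order sequence: the multiset of the orders of all elements -/
noncomputable def os (G : Type) [Group G] [Fintype G] : Multiset ℕ :=
  (Finset.univ : Finset G).val.map orderOf

/-! ### the group `W` -/

/-- `ℤ[ω]/27`, written in the basis `1, 1-ω` -/
abbrev Z := ZMod 27 × ZMod 27

/-- multiplication by `ω ^ s` -/
def act (s : ZMod 3) (z : Z) : Z :=
  if s = 0 then z else if s = 1 then (z.1 + 3 * z.2, -z.1 - 2 * z.2)
    else (-2 * z.1 - 3 * z.2, z.1 + z.2)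

lemma act_zero (z : Z) : act 0 z = z := by simp [act]

lemma act_one (z : Z) : act 1 z = (z.1 + 3 * z.2, -z.1 - 2 * z.2) := by
  simp [act]

lemma act_two (z : Z) : act 2 z = (-2 * z.1 - 3 * z.2, z.1 + z.2) := by
  have h1 : (2 : ZMod 3) ≠ 0 := by decide
  have h2 : (2 : ZMod 3) ≠ 1 := by decide
  simp [act, h1, h2]

lemma cases3 (s : ZMod 3) : s = 0 ∨ s = 1 ∨ s = 2 := by
  revert s; decide

lemma act_map_add (s : ZMod 3) (z w : Z) : act s (z + w) = act s z + act s w := by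
  rcases cases3 s with rfl | rfl | rfl
  · simp only [act_zero]
  · simp only [act_one]; ext <;> simp <;> ring
  · simp only [act_two]; ext <;> simp <;> ring

lemma act_map_zero (s : ZMod 3) : act s 0 = 0 := by
  rcases cases3 s with rfl | rfl | rfl
  · simp only [act_zero]
  · simp only [act_one]; ext <;> simp
  · simp only [act_two]; ext <;> simp

lemma act_add (s t : ZMod 3) (z : Z) : act (s + t) z = act s (act t z) := by
  have h11 : (1 : ZMod 3) + 1 = 2 := by decide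
  have h12 : (1 : ZMod 3) + 2 = 0 := by decide
  have h21 : (2 : ZMod 3) + 1 = 0 := by decide
  have h22 : (2 : ZMod 3) + 2 = 1 := by decide
  rcases cases3 s with rfl | rfl | rfl <;> rcases cases3 t with rfl | rfl | rfl <;>
    simp only [h11, h12, h21, h22, zero_add, add_zero, act_zero, act_one, act_two] <;>
    ext <;> simp <;> ring

/-- the ambient group `(ℤ[ω]/27)^3 ⋊ C_3^2` -/
@[ext] structure W where
  q1 : ZMod 3
  q2 : ZMod 3
  z0 : Z
  z1 : Z
  z2 : Z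

instance : Mul W := ⟨fun a b => ⟨a.q1 + b.q1, a.q2 + b.q2, a.z0 + act a.q1 b.z0,
  a.z1 + act (a.q1 - a.q2) b.z1, a.z2 + act (a.q1 - 2 * a.q2) b.z2⟩⟩

instance : One W := ⟨⟨0, 0, 0, 0, 0⟩⟩

instance : Inv W := ⟨fun a => ⟨-a.q1, -a.q2, -(act (-a.q1) a.z0), -(act (-(a.q1 - a.q2)) a.z1),
  -(act (-(a.q1 - 2 * a.q2)) a.z2)⟩⟩

lemma mul_def (a b : W) : a * b = ⟨a.q1 + b.q1, a.q2 + b.q2, a.z0 + act a.q1 b.z0,
  a.z1 + act (a.q1 - a.q2) b.z1, a.z2 + act (a.q1 - 2 * a.q2) b.z2⟩ := rfl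

lemma one_def : (1 : W) = ⟨0, 0, 0, 0, 0⟩ := rfl

lemma inv_def (a : W) : a⁻¹ = ⟨-a.q1, -a.q2, -(act (-a.q1) a.z0), -(act (-(a.q1 - a.q2)) a.z1),
  -(act (-(a.q1 - 2 * a.q2)) a.z2)⟩ := rfl

instance : Group W := Group.ofLeftAxioms
  (by
    intro a b c
    have e1 : a.q1 + b.q1 - (a.q2 + b.q2) = (a.q1 - a.q2) + (b.q1 - b.q2) := by ring
    have e2 : a.q1 + b.q1 - 2 * (a.q2 + b.q2) = (a.q1 - 2 * a.q2) + (b.q1 - 2 * b.q2) := by ring
    simp only [mul_def, e1, e2, act_add, act_map_add, add_assoc])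
  (by
    intro a
    simp only [mul_def, one_def, zero_add, mul_zero, sub_zero, act_zero])
  (by
    intro a
    have e1 : -a.q1 - -a.q2 = -(a.q1 - a.q2) := by ring
    have e2 : -a.q1 - 2 * -a.q2 = -(a.q1 - 2 * a.q2) := by ring
    simp only [mul_def, one_def, inv_def, neg_add_cancel, e1, e2])

/-- `1 + ω^s + ω^{2s}` -/
def nrm (s : ZMod 3) (z : Z) : Z := if s = 0 then (3 * z.1, 3 * z.2) else 0

lemma nrm_eq (s : ZMod 3) (z : Z) : z + act s z + act (s + s) z = nrm s z := by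
  have h11 : (1 : ZMod 3) + 1 = 2 := by decide
  have h22 : (2 : ZMod 3) + 2 = 1 := by decide
  have h1 : (1 : ZMod 3) ≠ 0 := by decide
  have h2 : (2 : ZMod 3) ≠ 0 := by decide
  rcases cases3 s with rfl | rfl | rfl
  · simp only [add_zero, act_zero, nrm, if_true]; ext <;> simp <;> ring
  · simp only [h11, act_one, act_two, nrm, h1, if_false]; ext <;> simp <;> ring
  · simp only [h22, act_one, act_two, nrm, h2, if_false]; ext <;> simp <;> ring

lemma pow3 (w : W) : w ^ 3 = ⟨0, 0, nrm w.q1 w.z0, nrm (w.q1 - w.q2) w.z1,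
    nrm (w.q1 - 2 * w.q2) w.z2⟩ := by
  have h3 : ∀ s : ZMod 3, s + s + s = 0 := by decide
  have e1 : w.q1 + w.q1 - (w.q2 + w.q2) = (w.q1 - w.q2) + (w.q1 - w.q2) := by ring
  have e2 : w.q1 + w.q1 - 2 * (w.q2 + w.q2) = (w.q1 - 2 * w.q2) + (w.q1 - 2 * w.q2) := by ring
  rw [pow_succ, pow_succ, pow_one]
  simp only [mul_def, h3, e1, e2, nrm_eq]

lemma pow9 (w : W) : w ^ 9 = ⟨0, 0, nrm 0 (nrm w.q1 w.z0), nrm 0 (nrm (w.q1 - w.q2) w.z1),
    nrm 0 (nrm (w.q1 - 2 * w.q2) w.z2)⟩ := by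
  have : w ^ 9 = (w ^ 3) ^ 3 := by rw [← pow_mul]
  rw [this, pow3 (w ^ 3), pow3 w]
  simp

lemma nrm3 (s : ZMod 3) (z : Z) : nrm 0 (nrm 0 (nrm s z)) = 0 := by
  have h27 : (27 : ZMod 27) = 0 := by decide
  by_cases hs : s = 0
  · simp only [nrm, hs, if_true]
    ext
    · show (3 : ZMod 27) * (3 * (3 * z.1)) = 0
      linear_combination z.1 * h27
    · show (3 : ZMod 27) * (3 * (3 * z.2)) = 0
      linear_combination z.2 * h27
  · simp [nrm, hs]

lemma pow27 (w : W) : w ^ 27 = 1 := by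
  have : w ^ 27 = (w ^ 9) ^ 3 := by rw [← pow_mul]
  rw [this, pow3 (w ^ 9), pow9 w, one_def]
  simp [nrm3]

/-- reduction modulo `3` -/
def cst : ZMod 27 →+* ZMod 3 := ZMod.castHom (by norm_num) (ZMod 3)

lemma cst_act1 (s : ZMod 3) (z : Z) : cst (act s z).1 = cst z.1 := by
  have h3 : (3 : ZMod 3) = 0 := by decide
  have h2 : (-2 : ZMod 3) = 1 := by decide
  rcases cases3 s with rfl | rfl | rfl
  · simp only [act_zero]
  · simp only [act_one, map_add, map_mul, map_ofNat, h3, zero_mul, add_zero]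
  · simp only [act_two, map_sub, map_mul, map_ofNat, map_neg, h3, zero_mul, sub_zero, h2, one_mul]

lemma cst_act2 (s : ZMod 3) (z : Z) (h : cst z.1 = 0) : cst (act s z).2 = cst z.2 := by
  have h2 : (-2 : ZMod 3) = 1 := by decide
  rcases cases3 s with rfl | rfl | rfl
  · simp only [act_zero]
  · simp only [act_one, map_sub, map_mul, map_ofNat, map_neg, h, neg_zero, zero_sub, ← neg_mul, h2,
      one_mul]
  · simp only [act_two, map_add, h, zero_add]

/-- the fibre product `H` -/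
def H : Subgroup W where
  carrier := {w | cst w.z0.1 = w.q2 ∧ (cst w.z1.1 = 0 ∧ cst w.z1.2 = w.q2) ∧
    (cst w.z2.1 = 0 ∧ cst w.z2.2 = w.q2)}
  mul_mem' := by
    rintro a b ⟨h0, ⟨h1, h1'⟩, ⟨h2, h2'⟩⟩ ⟨k0, ⟨k1, k1'⟩, ⟨k2, k2'⟩⟩
    refine ⟨?_, ⟨?_, ?_⟩, ⟨?_, ?_⟩⟩
    · simp only [mul_def, Prod.fst_add, map_add, cst_act1, h0, k0]
    · simp only [mul_def, Prod.fst_add, map_add, cst_act1, h1, k1, add_zero]
    · simp only [mul_def, Prod.snd_add, map_add, cst_act2 _ _ k1, h1', k1']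
    · simp only [mul_def, Prod.fst_add, map_add, cst_act1, h2, k2, add_zero]
    · simp only [mul_def, Prod.snd_add, map_add, cst_act2 _ _ k2, h2', k2']
  one_mem' := by
    refine ⟨?_, ⟨?_, ?_⟩, ⟨?_, ?_⟩⟩ <;> simp [one_def]
  inv_mem' := by
    rintro a ⟨h0, ⟨h1, h1'⟩, ⟨h2, h2'⟩⟩
    refine ⟨?_, ⟨?_, ?_⟩, ⟨?_, ?_⟩⟩
    · simp only [inv_def, Prod.fst_neg, map_neg, cst_act1, h0]
    · simp only [inv_def, Prod.fst_neg, map_neg, cst_act1, h1, neg_zero]
    · simp only [inv_def, Prod.snd_neg, map_neg, cst_act2 _ _ h1, h1']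
    · simp only [inv_def, Prod.fst_neg, map_neg, cst_act1, h2, neg_zero]
    · simp only [inv_def, Prod.snd_neg, map_neg, cst_act2 _ _ h2, h2']

lemma mem_H (w : W) : w ∈ H ↔ cst w.z0.1 = w.q2 ∧ (cst w.z1.1 = 0 ∧ cst w.z1.2 = w.q2) ∧
    (cst w.z2.1 = 0 ∧ cst w.z2.2 = w.q2) := Iff.rfl


/-! ### counting in `H` -/

/-- `W` as a product, fibred over the pair `(q1, q2)` -/
def fibEquiv (A0 : ZMod 3 → ZMod 3 → Z → Prop) (A1 : ZMod 3 → ZMod 3 → Z → Prop) :
    {w : W // A0 w.q1 w.q2 w.z0 ∧ A1 (w.q1 - w.q2) w.q2 w.z1 ∧ A1 (w.q1 - 2 * w.q2) w.q2 w.z2} ≃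
    Σ q : ZMod 3 × ZMod 3, {z : Z // A0 q.1 q.2 z} × {z : Z // A1 (q.1 - q.2) q.2 z} ×
      {z : Z // A1 (q.1 - 2 * q.2) q.2 z} where
  toFun w := ⟨(w.1.q1, w.1.q2), ⟨w.1.z0, w.2.1⟩, ⟨w.1.z1, w.2.2.1⟩, ⟨w.1.z2, w.2.2.2⟩⟩
  invFun s := ⟨⟨s.1.1, s.1.2, s.2.1.1, s.2.2.1.1, s.2.2.2.1⟩, s.2.1.2, s.2.2.1.2, s.2.2.2.2⟩
  left_inv _ := rfl
  right_inv _ := rfl

lemma card_fib (A0 : ZMod 3 → ZMod 3 → Z → Prop) (A1 : ZMod 3 → ZMod 3 → Z → Prop)
    (n0 n1 : ZMod 3 → ZMod 3 → ℕ)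
    (h0 : ∀ s c, Nat.card {z : Z // A0 s c z} = n0 s c)
    (h1 : ∀ s c, Nat.card {z : Z // A1 s c z} = n1 s c) :
    Nat.card {w : W // A0 w.q1 w.q2 w.z0 ∧ A1 (w.q1 - w.q2) w.q2 w.z1 ∧
      A1 (w.q1 - 2 * w.q2) w.q2 w.z2} =
    ∑ q : ZMod 3 × ZMod 3, n0 q.1 q.2 * (n1 (q.1 - q.2) q.2 * n1 (q.1 - 2 * q.2) q.2) := by
  rw [Nat.card_congr (fibEquiv A0 A1), Nat.card_sigma]
  refine Finset.sum_congr rfl fun q _ => ?_
  rw [Nat.card_prod, Nat.card_prod, h0, h1, h1]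

def P0 (c : ZMod 3) (z : Z) : Prop := cst z.1 = c
def P1 (c : ZMod 3) (z : Z) : Prop := cst z.1 = 0 ∧ cst z.2 = c

instance (c : ZMod 3) : DecidablePred (P0 c) := fun z => by unfold P0; infer_instance
instance (c : ZMod 3) : DecidablePred (P1 c) := fun z => by unfold P1; infer_instance

lemma cntP0 (_ c : ZMod 3) : Nat.card {z : Z // P0 c z} = 243 := by
  rw [Nat.card_eq_fintype_card, Fintype.card_subtype]
  revert c; decide +kernel

lemma cntP1 (_ c : ZMod 3) : Nat.card {z : Z // P1 c z} = 81 := by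
  rw [Nat.card_eq_fintype_card, Fintype.card_subtype]
  revert c; decide +kernel

lemma cntA0 (s c : ZMod 3) : Nat.card {z : Z // P0 c z ∧ nrm s z = 0} =
    if s = 0 then (if c = 0 then 9 else 0) else 243 := by
  rw [Nat.card_eq_fintype_card, Fintype.card_subtype]
  revert s c; decide +kernel

lemma cntA1 (s c : ZMod 3) : Nat.card {z : Z // P1 c z ∧ nrm s z = 0} =
    if s = 0 then (if c = 0 then 9 else 0) else 81 := by
  rw [Nat.card_eq_fintype_card, Fintype.card_subtype]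
  revert s c; decide +kernel

lemma cntB0 (s c : ZMod 3) : Nat.card {z : Z // P0 c z ∧ nrm 0 (nrm s z) = 0} =
    if s = 0 then (if c = 0 then 81 else 0) else 243 := by
  rw [Nat.card_eq_fintype_card, Fintype.card_subtype]
  revert s c; decide +kernel

lemma cntB1 (s c : ZMod 3) : Nat.card {z : Z // P1 c z ∧ nrm 0 (nrm s z) = 0} =
    if s = 0 then (if c = 0 then 81 else 0) else 81 := by
  rw [Nat.card_eq_fintype_card, Fintype.card_subtype]
  revert s c; decide +kernel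

lemma card_H : Nat.card H = 3 ^ 15 := by
  have h := card_fib (fun _ c z => P0 c z) (fun _ c z => P1 c z) (fun _ _ => 243) (fun _ _ => 81)
    cntP0 cntP1
  have e : Nat.card H = Nat.card {w : W // P0 w.q2 w.z0 ∧ P1 w.q2 w.z1 ∧ P1 w.q2 w.z2} :=
    Nat.card_congr (Equiv.refl _)
  rw [e, h]
  decide +kernel

lemma card_H3 : Nat.card {h : H // h ^ 3 = 1} = 3 ^ 6 + 2 * 3 ^ 13 := by
  have h := card_fib (fun s c z => P0 c z ∧ nrm s z = 0) (fun s c z => P1 c z ∧ nrm s z = 0) _ _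
    cntA0 cntA1
  have e : Nat.card {h : H // h ^ 3 = 1} = Nat.card {w : W // (P0 w.q2 w.z0 ∧ nrm w.q1 w.z0 = 0) ∧
      (P1 w.q2 w.z1 ∧ nrm (w.q1 - w.q2) w.z1 = 0) ∧
      (P1 w.q2 w.z2 ∧ nrm (w.q1 - 2 * w.q2) w.z2 = 0)} := by
    refine Nat.card_congr ⟨fun x => ⟨x.1.1, ?_⟩, fun y => ⟨⟨y.1, ?_⟩, ?_⟩, ?_, ?_⟩
    · obtain ⟨⟨w, hw⟩, hx⟩ := x
      have hx' : w ^ 3 = 1 := congrArg Subtype.val hx
      rw [pow3, one_def] at hx'
      obtain ⟨k0, k1, k2⟩ := hw
      simp only [W.mk.injEq] at hx'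
      exact ⟨⟨k0, hx'.2.2.1⟩, ⟨k1, hx'.2.2.2.1⟩, ⟨k2, hx'.2.2.2.2⟩⟩
    · exact ⟨y.2.1.1, y.2.2.1.1, y.2.2.2.1⟩
    · apply Subtype.ext
      show y.1 ^ 3 = 1
      rw [pow3, one_def, y.2.1.2, y.2.2.1.2, y.2.2.2.2]
    · intro x; rfl
    · intro y; rfl
  rw [e, h]
  decide +kernel

lemma card_H9 : Nat.card {h : H // h ^ 9 = 1} = 3 ^ 12 + 2 * 3 ^ 13 := by
  have h := card_fib (fun s c z => P0 c z ∧ nrm 0 (nrm s z) = 0)
    (fun s c z => P1 c z ∧ nrm 0 (nrm s z) = 0) _ _ cntB0 cntB1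
  have e : Nat.card {h : H // h ^ 9 = 1} =
      Nat.card {w : W // (P0 w.q2 w.z0 ∧ nrm 0 (nrm w.q1 w.z0) = 0) ∧
      (P1 w.q2 w.z1 ∧ nrm 0 (nrm (w.q1 - w.q2) w.z1) = 0) ∧
      (P1 w.q2 w.z2 ∧ nrm 0 (nrm (w.q1 - 2 * w.q2) w.z2) = 0)} := by
    refine Nat.card_congr ⟨fun x => ⟨x.1.1, ?_⟩, fun y => ⟨⟨y.1, ?_⟩, ?_⟩, ?_, ?_⟩
    · obtain ⟨⟨w, hw⟩, hx⟩ := x
      have hx' : w ^ 9 = 1 := congrArg Subtype.val hx
      rw [pow9, one_def] at hx'
      obtain ⟨k0, k1, k2⟩ := hw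
      simp only [W.mk.injEq] at hx'
      exact ⟨⟨k0, hx'.2.2.1⟩, ⟨k1, hx'.2.2.2.1⟩, ⟨k2, hx'.2.2.2.2⟩⟩
    · exact ⟨y.2.1.1, y.2.2.1.1, y.2.2.2.1⟩
    · apply Subtype.ext
      show y.1 ^ 9 = 1
      rw [pow9, one_def, y.2.1.2, y.2.2.1.2, y.2.2.2.2]
    · intro x; rfl
    · intro y; rfl
  rw [e, h]
  decide +kernel


/-! ### element orders in groups of exponent dividing `27` -/

open Classical in
lemma order_formula {X : Type} [Group X] (x : X) (h : x ^ 27 = 1) :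
    orderOf x + (if x = 1 then 2 else 0) + (if x ^ 3 = 1 then 6 else 0) +
      (if x ^ 9 = 1 then 18 else 0) = 27 := by
  have hd : orderOf x ∣ 3 ^ 3 := orderOf_dvd_of_pow_eq_one h
  obtain ⟨k, hk, hk'⟩ := (Nat.dvd_prime_pow Nat.prime_three).1 hd
  have h1 : (x = 1) ↔ orderOf x ∣ 1 := by rw [orderOf_dvd_iff_pow_eq_one, pow_one]
  have h3 : (x ^ 3 = 1) ↔ orderOf x ∣ 3 := by rw [orderOf_dvd_iff_pow_eq_one]
  have h9 : (x ^ 9 = 1) ↔ orderOf x ∣ 9 := by rw [orderOf_dvd_iff_pow_eq_one]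
  simp only [h1, h3, h9, hk']
  interval_cases k <;> decide

lemma psi_formula (X : Type) [Group X] [Fintype X] (h : ∀ x : X, x ^ 27 = 1) :
    psi X + 2 + 6 * Nat.card {x : X // x ^ 3 = 1} + 18 * Nat.card {x : X // x ^ 9 = 1} =
      27 * Nat.card X := by
  classical
  have e1 : Nat.card {x : X // x ^ 3 = 1} = ∑ x : X, (if x ^ 3 = 1 then 1 else 0) := by
    rw [Nat.card_eq_fintype_card, Fintype.card_subtype, Finset.card_filter]
  have e2 : Nat.card {x : X // x ^ 9 = 1} = ∑ x : X, (if x ^ 9 = 1 then 1 else 0) := by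
    rw [Nat.card_eq_fintype_card, Fintype.card_subtype, Finset.card_filter]
  have e3 : Nat.card X = ∑ x : X, 1 := by
    rw [Nat.card_eq_fintype_card, Finset.sum_const, smul_eq_mul, mul_one, Finset.card_univ]
  have e4 : 2 = ∑ x : X, (if x = 1 then 2 else 0) := by
    rw [Finset.sum_ite_eq' Finset.univ (1 : X) (fun _ => 2)]; simp
  have e5 : ∑ x : X, (orderOf x + (if x = 1 then 2 else 0) + (if x ^ 3 = 1 then 6 else 0) +
      (if x ^ 9 = 1 then 18 else 0)) = ∑ x : X, 27 :=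
    Finset.sum_congr rfl fun x _ => order_formula x (h x)
  rw [Finset.sum_add_distrib, Finset.sum_add_distrib, Finset.sum_add_distrib, ← e4] at e5
  rw [e1, e2, e3, psi, Finset.mul_sum, Finset.mul_sum, Finset.mul_sum]
  simp only [mul_ite, mul_one, mul_zero]
  exact e5

lemma psi_formula' (X : Type) [Group X] [Fintype X] (h : ∀ x : X, x ^ 27 = 1) (n a b : ℕ)
    (hn : Nat.card X = n) (ha : Nat.card {x : X // x ^ 3 = 1} = a)
    (hb : Nat.card {x : X // x ^ 9 = 1} = b) : psi X + 2 + 6 * a + 18 * b = 27 * n := by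
  subst hn ha hb
  exact psi_formula X h

lemma countP_os (X : Type) [Group X] [Fintype X] :
    (os X).countP (fun d => d ∣ 3) = Nat.card {x : X // x ^ 3 = 1} := by
  classical
  rw [os, Multiset.countP_map, Nat.card_eq_fintype_card, Fintype.card_subtype]
  simp only [orderOf_dvd_iff_pow_eq_one]
  rfl

/-! ### the two groups -/

/-- the elementary abelian group of order `9` -/
abbrev E := Multiplicative (ZMod 3 × ZMod 3)

lemma E_pow3 (x : E) : x ^ 3 = 1 := by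
  revert x; decide

instance : Finite W :=
  Finite.of_injective (fun w : W => (w.q1, w.q2, w.z0, w.z1, w.z2)) (by
    intro a b h
    simp only [Prod.mk.injEq] at h
    exact W.ext h.1 h.2.1 h.2.2.1 h.2.2.2.1 h.2.2.2.2)

/-- the second group, of order `3 ^ 17` -/
abbrev K := H × E

/-- the abelian group `C_27 × C_9 ^ 7` -/
abbrev G := Multiplicative (ZMod 27 × (Fin 7 → ZMod 9))

lemma card_K : Nat.card K = 3 ^ 17 := by
  have : Nat.card E = 9 := by
    rw [Nat.card_eq_fintype_card]; rfl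
  rw [Nat.card_prod, card_H, this]; norm_num

lemma card_K_pow (n : ℕ) (hn : 3 ∣ n) :
    Nat.card {x : K // x ^ n = 1} = Nat.card {h : H // h ^ n = 1} * 9 := by
  have hE : Nat.card E = 9 := by
    rw [Nat.card_eq_fintype_card]; rfl
  obtain ⟨m, rfl⟩ := hn
  have hx : ∀ x : E, x ^ (3 * m) = 1 := fun x => by rw [pow_mul, E_pow3, one_pow]
  rw [← hE, ← Nat.card_prod]
  refine Nat.card_congr ⟨fun x => (⟨x.1.1, ?_⟩, x.1.2), fun y => ⟨(y.1.1, y.2), ?_⟩, ?_, ?_⟩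
  · exact congrArg Prod.fst x.2
  · exact Prod.ext y.1.2 (hx _)
  · intro x; rfl
  · intro y; rfl

lemma K_pow27 (x : K) : x ^ 27 = 1 := by
  refine Prod.ext (Subtype.ext (pow27 _)) ?_
  show x.2 ^ 27 = 1
  have : x.2 ^ 27 = (x.2 ^ 3) ^ 9 := by rw [← pow_mul]
  rw [this, E_pow3, one_pow]

lemma card_G_pow (n : ℕ) (a b : ℕ) (ha : Nat.card {x : ZMod 27 // n • x = 0} = a)
    (hb : Nat.card {x : ZMod 9 // n • x = 0} = b) :
    Nat.card {x : G // x ^ n = 1} = a * b ^ 7 := by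
  have h1 : Nat.card (Fin 7 → {x : ZMod 9 // n • x = 0}) = b ^ 7 := by
    rw [Nat.card_pi]; simp only [hb, Finset.prod_const, Finset.card_univ, Fintype.card_fin]
  rw [← ha, ← h1, ← Nat.card_prod]
  refine Nat.card_congr ⟨fun x => (⟨x.1.toAdd.1, ?_⟩, fun i => ⟨x.1.toAdd.2 i, ?_⟩),
    fun y => ⟨Multiplicative.ofAdd (y.1.1, fun i => (y.2 i).1), ?_⟩, ?_, ?_⟩
  · have h := x.2
    have h' : n • x.1.toAdd = 0 := by rw [← toAdd_pow, h]; rfl
    exact congrArg Prod.fst h'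
  · have h := x.2
    have h' : n • x.1.toAdd = 0 := by rw [← toAdd_pow, h]; rfl
    exact congrFun (congrArg Prod.snd h') i
  · rw [← ofAdd_nsmul]
    refine congrArg Multiplicative.ofAdd (Prod.ext y.1.2 ?_)
    funext i
    exact (y.2 i).2
  · intro x; rfl
  · intro y; rfl

lemma card_G : Nat.card G = 3 ^ 17 := by
  have h : Nat.card G = Nat.card (ZMod 27 × (Fin 7 → ZMod 9)) := rfl
  rw [h, Nat.card_prod, Nat.card_pi, Nat.card_zmod]
  simp only [Nat.card_zmod, Finset.prod_const, Finset.card_univ, Fintype.card_fin]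
  norm_num

lemma card_G3 : Nat.card {x : G // x ^ 3 = 1} = 3 ^ 8 := by
  rw [card_G_pow 3 3 3 (by rw [Nat.card_eq_fintype_card, Fintype.card_subtype]; decide +kernel)
    (by rw [Nat.card_eq_fintype_card, Fintype.card_subtype]; decide +kernel)]
  norm_num

lemma card_G9 : Nat.card {x : G // x ^ 9 = 1} = 3 ^ 16 := by
  rw [card_G_pow 9 9 9 (by rw [Nat.card_eq_fintype_card, Fintype.card_subtype]; decide +kernel)
    (by rw [Nat.card_eq_fintype_card, Fintype.card_subtype]; decide +kernel)]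
  norm_num

lemma G_pow27 (x : G) : x ^ 27 = 1 := by
  have h27 : (27 : ZMod 27) = 0 := by decide
  have h9 : (27 : ZMod 9) = 0 := by decide
  have h : (27 : ℕ) • x.toAdd = 0 := by
    refine Prod.ext ?_ (funext fun i => ?_)
    · show (27 : ℕ) • x.toAdd.1 = 0
      rw [nsmul_eq_mul]; push_cast; rw [h27, zero_mul]
    · show (27 : ℕ) • x.toAdd.2 i = 0
      rw [nsmul_eq_mul]; push_cast; rw [h9, zero_mul]
  have h' : Multiplicative.ofAdd ((27 : ℕ) • x.toAdd) = 1 := by rw [h]; rfl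
  rwa [ofAdd_nsmul] at h'

lemma exp_G : 27 ∣ Monoid.exponent G := by
  have h : orderOf (Multiplicative.ofAdd ((1, 0) : ZMod 27 × (Fin 7 → ZMod 9))) = 27 := by
    rw [orderOf_ofAdd_eq_addOrderOf, Prod.addOrderOf, addOrderOf_zero, ZMod.addOrderOf_one]
    rfl
  have h' := Monoid.order_dvd_exponent
    (Multiplicative.ofAdd ((1, 0) : ZMod 27 × (Fin 7 → ZMod 9)))
  rwa [h] at h'

lemma arith (u v : ℕ) (h1 : u + 2 + 6 * 3 ^ 8 + 18 * 3 ^ 16 = 27 * 3 ^ 17)
    (h2 : v + 2 + 6 * ((3 ^ 6 + 2 * 3 ^ 13) * 9) + 18 * ((3 ^ 12 + 2 * 3 ^ 13) * 9) =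
      27 * 3 ^ 17) : u = v := by
  norm_num at h1 h2
  omega

/-- The order sequence is not determined by the sum of element orders for odd order, even when
`G` is an LCM-group and `exp H ∣ exp G`. -/
theorem result : ¬ ∀ (G K : Type) [Group G] [Group K] [Fintype G] [Fintype K],
    Fintype.card G = Fintype.card K → Odd (Fintype.card G) → IsLCMGroup G →
    Monoid.exponent K ∣ Monoid.exponent G → psi G = psi K → os G = os K := by
  intro hall
  have := Fintype.ofFinite H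
  have hcard : Fintype.card G = Fintype.card K := by
    rw [← Nat.card_eq_fintype_card, ← Nat.card_eq_fintype_card, card_G, card_K]
  have hodd : Odd (Fintype.card G) := by
    rw [← Nat.card_eq_fintype_card, card_G]; exact Odd.pow (by decide)
  have hlcm : IsLCMGroup G := fun x y n => (Commute.all (x ^ n) y).orderOf_mul_dvd_lcm
  have hexp : Monoid.exponent K ∣ Monoid.exponent G :=
    (Monoid.exponent_dvd_of_forall_pow_eq_one K_pow27).trans exp_G
  have hpsi : psi G = psi K := by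
    have h1 := psi_formula' G G_pow27 _ _ _ card_G card_G3 card_G9
    have h2 := psi_formula' K K_pow27 _ _ _ card_K ((card_K_pow 3 (by norm_num)).trans
      (congrArg (· * 9) card_H3)) ((card_K_pow 9 (by norm_num)).trans (congrArg (· * 9) card_H9))
    exact arith _ _ h1 h2
  have hos := hall G K hcard hodd hlcm hexp hpsi
  have h := congrArg (fun s => Multiset.countP (fun d => d ∣ 3) s) hos
  have hG := (countP_os G).trans card_G3
  have hK := (countP_os K).trans ((card_K_pow 3 (by norm_num)).trans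
    (congrArg (· * 9) card_H3))
  have h' := (hG.symm.trans h).trans hK
  norm_num at h'

end Pool.Agent.Results.MP_c3eb23_al.OddOrderCounterexample
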